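import Pool.Agent.helper57.DH.SpecL

set_option autoImplicit false

open Filter Topology MeasureTheory
open scoped commutatorElement

namespace Pool.Agent.helper90.DH

open Pool.Agent.helper64.D2

lemma LEB_mem_cell (s : ℕ) (k : ℤ) (x : ℝ) : x ∈ cell s k ↔ ci s x = k := by
  have h2 : (0 : ℝ) < 2 ^ s := by positivity
  unfold cell ci
  rw [Int.floor_eq_iff, Set.mem_Ico, div_le_iff₀ h2, lt_div_iff₀ h2, mul_comm x]

lemma LEB_measCell (s : ℕ) (k : ℤ) : MeasurableSet (cell s k) := measurableSet_Ico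

lemma LEB_volCell (s : ℕ) (k : ℤ) : volume.real (cell s k) = 1 / 2 ^ s := by
  have h2 : (0 : ℝ) < 2 ^ s := by positivity
  unfold cell
  rw [Real.volume_real_Ico_of_le (by apply div_le_div_of_nonneg_right _ h2.le; linarith)]
  field_simp
  ring

lemma LEB_dist (s : ℕ) (x t : ℝ) (ht : t ∈ cell s (ci s x)) : |t - mid s x| ≤ 1 / 2 / 2 ^ s := by
  have h2 : (0 : ℝ) < 2 ^ s := by positivity
  unfold cell at ht
  obtain ⟨h1, h3⟩ := ht
  rw [div_le_iff₀ h2] at h1
  rw [lt_div_iff₀ h2] at h3
  unfold mid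
  rw [abs_le]
  constructor
  · rw [neg_le_sub_iff_le_add, ← sub_le_iff_le_add, ← sub_div, div_le_iff₀ h2]
    linarith
  · rw [sub_le_iff_le_add, ← add_div, le_div_iff₀ h2]
    linarith

lemma LEB_near (s : ℕ) (x t : ℝ) (ht : t ∈ cell s (ci s x)) : |t - x| ≤ 1 / 2 ^ s := by
  have h1 := LEB_dist s x t ht
  have h2 := LEB_dist s x x ((LEB_mem_cell s _ x).2 rfl)
  have h3 : (1 : ℝ) / 2 ^ s = 1 / 2 / 2 ^ s + 1 / 2 / 2 ^ s := by ring
  rw [h3]
  calc |t - x| = |(t - mid s x) - (x - mid s x)| := by ring_nf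
    _ ≤ |t - mid s x| + |x - mid s x| := abs_sub _ _
    _ ≤ _ := add_le_add h1 h2

lemma LEB_int (f : ℝ → ℝ) (hf : BM f) : Integrable f := by
  obtain ⟨hm, ⟨B, hB⟩, h0⟩ := hf
  have h1 : IntegrableOn f (Set.Icc (0 : ℝ) 1) := by
    refine Measure.integrableOn_of_bounded (M := B) (by simp) hm.aestronglyMeasurable ?_
    filter_upwards with x
    rw [Real.norm_eq_abs]
    exact hB x
  rw [← integrableOn_univ]
  refine h1.of_forall_sdiff_eq_zero MeasurableSet.univ ?_
  intro x hx
  exact h0 x hx.2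

lemma LEB_bd (s : ℕ) (f : ℝ → ℝ) (x : ℝ) (hf : BM f) :
    |Es s f x| ≤ 4 * 2 ^ s * ∫ t in cell s (ci s x), |f t| := by
  have h2 : (0 : ℝ) < 2 ^ s := by positivity
  have hi := LEB_int f hf
  set I := ∫ t in cell s (ci s x), |f t| with hI
  have hI0 : 0 ≤ I := integral_nonneg (fun t => abs_nonneg _)
  have h1 : |∫ t in cell s (ci s x), f t| ≤ I := by
    rw [← Real.norm_eq_abs]
    exact (norm_integral_le_integral_norm _).trans (le_of_eq rfl)
  have h3 : |∫ t in cell s (ci s x), (t - mid s x) * f t| ≤ 1 / 2 / 2 ^ s * I := by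
    rw [← Real.norm_eq_abs]
    refine (norm_integral_le_integral_norm _).trans ?_
    rw [hI, ← integral_const_mul]
    apply integral_mono_of_nonneg
    · filter_upwards with t
      exact norm_nonneg _
    · exact (hi.abs.integrableOn).const_mul _
    · rw [Filter.EventuallyLE, ae_restrict_iff' (LEB_measCell _ _)]
      filter_upwards with t ht
      rw [Real.norm_eq_abs, abs_mul]
      exact mul_le_mul_of_nonneg_right (LEB_dist s x t ht) (abs_nonneg _)
  have h4 := LEB_dist s x x ((LEB_mem_cell s _ x).2 rfl)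
  unfold Es
  calc |2 ^ s * (∫ t in cell s (ci s x), f t) + 12 * 2 ^ (3 * s) * (x - mid s x) * ∫ t in cell s (ci s x), (t - mid s x) * f t|
      ≤ |2 ^ s * (∫ t in cell s (ci s x), f t)| + |12 * 2 ^ (3 * s) * (x - mid s x) * ∫ t in cell s (ci s x), (t - mid s x) * f t| := abs_add_le _ _
    _ = 2 ^ s * |∫ t in cell s (ci s x), f t| + 12 * 2 ^ (3 * s) * |x - mid s x| * |∫ t in cell s (ci s x), (t - mid s x) * f t| := by
        rw [abs_mul, abs_mul, abs_mul, abs_of_pos h2, abs_of_pos (by positivity : (0 : ℝ) < 12 * 2 ^ (3 * s))]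
    _ ≤ 2 ^ s * I + 12 * 2 ^ (3 * s) * (1 / 2 / 2 ^ s) * (1 / 2 / 2 ^ s * I) := by
        apply add_le_add
        · exact mul_le_mul_of_nonneg_left h1 h2.le
        · apply mul_le_mul _ h3 (abs_nonneg _) (by positivity)
          exact mul_le_mul_of_nonneg_left h4 (by positivity)
    _ = 4 * 2 ^ s * I := by
        have : (2 : ℝ) ^ (3 * s) = 2 ^ s * 2 ^ s * 2 ^ s := by
          rw [← pow_add, ← pow_add]
          congr 1
          ring
        rw [this]
        field_simp
        ring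

theorem LEB : LEB_stmt := by
  refine ⟨fun s f x hf => LEB_bd s f x hf, ?_, ?_⟩
  · intro s f B hf hB x
    have h2 : (0 : ℝ) < 2 ^ s := by positivity
    have h1 := LEB_bd s f x hf
    have h3 : ∫ t in cell s (ci s x), |f t| ≤ B * (1 / 2 ^ s) := by
      have h4 := norm_setIntegral_le_of_norm_le_const (μ := volume) (f := fun t => |f t|) (s := cell s (ci s x)) (C := B)
        (by unfold cell; simp) (fun t _ => by rw [Real.norm_eq_abs, abs_abs]; exact hB t)
      rw [LEB_volCell] at h4
      exact (le_abs_self _).trans h4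
    calc |Es s f x| ≤ 4 * 2 ^ s * ∫ t in cell s (ci s x), |f t| := h1
      _ ≤ 4 * 2 ^ s * (B * (1 / 2 ^ s)) := mul_le_mul_of_nonneg_left h3 (by positivity)
      _ = 4 * B := by field_simp
  · intro s f a b h0 x hx
    have hz : ∀ t ∈ cell s (ci s x), f t = 0 := by
      intro t ht
      apply h0
      intro hab
      apply hx
      have := abs_le.1 (LEB_near s x t ht)
      exact ⟨by linarith [hab.1, this.2], by linarith [hab.2, this.1]⟩
    unfold Es
    have h1 : ∫ t in cell s (ci s x), f t = 0 := by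
      rw [setIntegral_congr_fun (LEB_measCell _ _) (g := fun _ => (0 : ℝ)) (fun t ht => hz t ht)]
      simp
    have h2 : ∫ t in cell s (ci s x), (t - mid s x) * f t = 0 := by
      rw [setIntegral_congr_fun (LEB_measCell _ _) (g := fun _ => (0 : ℝ)) (fun t ht => by
        show (t - mid s x) * f t = 0
        rw [hz t ht, mul_zero])]
      simp
    rw [h1, h2]
    ring

end Pool.Agent.helper90.DH
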