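import Pool.Agent.helper57.DH.SpecL

set_option autoImplicit false

open Filter Topology MeasureTheory
open scoped commutatorElement

namespace Pool.Agent.helper90.DH

open Pool.Agent.helper64.D2

lemma MIX_mem_cell (s : ℕ) (k : ℤ) (x : ℝ) : x ∈ cell s k ↔ ci s x = k := by
  have h2 : (0 : ℝ) < 2 ^ s := by positivity
  unfold cell ci
  rw [Int.floor_eq_iff, Set.mem_Ico, div_le_iff₀ h2, lt_div_iff₀ h2, mul_comm x]

lemma MIX_measCell (s : ℕ) (k : ℤ) : MeasurableSet (cell s k) := measurableSet_Ico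

lemma MIX_volCell (s : ℕ) (k : ℤ) : volume.real (cell s k) = 1 / 2 ^ s := by
  have h2 : (0 : ℝ) < 2 ^ s := by positivity
  unfold cell
  rw [Real.volume_real_Ico_of_le (by apply div_le_div_of_nonneg_right _ h2.le; linarith)]
  field_simp
  ring

lemma MIX_UC_eq (s : ℕ) (B : Finset ℤ) : UC s B = ⋃ k ∈ B, cell s k := by
  ext x
  rw [Set.mem_iUnion₂]
  constructor
  · intro h
    exact ⟨ci s x, h, (MIX_mem_cell s _ x).2 rfl⟩
  · rintro ⟨k, hk, hx⟩
    show ci s x ∈ B
    rw [(MIX_mem_cell s k x).1 hx]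
    exact hk

lemma MIX_measUC (s : ℕ) (B : Finset ℤ) : MeasurableSet (UC s B) := by
  rw [MIX_UC_eq]
  exact B.measurableSet_biUnion (fun k _ => MIX_measCell s k)

lemma MIX_volUC (s : ℕ) (B : Finset ℤ) : volume.real (UC s B) ≤ B.card / 2 ^ s := by
  rw [MIX_UC_eq]
  refine (measureReal_biUnion_finset_le B _).trans ?_
  rw [Finset.sum_congr rfl (fun k _ => MIX_volCell s k), Finset.sum_const, nsmul_eq_mul]
  apply le_of_eq
  ring

lemma MIX_PA_sub (s : ℕ) (f g : ℝ → ℝ) (hf : PA s f) (hg : PA s g) : PA s (fun x => f x - g x) := by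
  intro k
  obtain ⟨a, b, h1⟩ := hf k
  obtain ⟨a', b', h2⟩ := hg k
  refine ⟨a - a', b - b', fun x hx => ?_⟩
  show f x - g x = _
  rw [h1 x hx, h2 x hx]
  ring

lemma MIX_PA_ind (s : ℕ) (B : Finset ℤ) : PA s ((UC s B).indicator 1) := by
  intro k
  by_cases hk : k ∈ B
  · refine ⟨1, 0, fun x hx => ?_⟩
    have : x ∈ UC s B := by
      show ci s x ∈ B
      rw [(MIX_mem_cell s k x).1 hx]
      exact hk
    rw [Set.indicator_of_mem this]
    simp
  · refine ⟨0, 0, fun x hx => ?_⟩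
    have : x ∉ UC s B := by
      show ¬ (ci s x ∈ B)
      rw [(MIX_mem_cell s k x).1 hx]
      exact hk
    rw [Set.indicator_of_notMem this]
    simp

theorem MIX (hFGA : FGA_stmt) (hLBM : LBM_stmt) (hLEA : LEA_stmt) (hLEP : LEP_stmt)
    (hLEB : LEB_stmt) (hLCV : LCV_stmt) : MIX_stmt := by
  obtain ⟨K1, hK1, hF⟩ := hFGA
  obtain ⟨bm1, bm2, bm3, bm4, -, bm6⟩ := hLBM
  obtain ⟨ea1, ea2, ea3, ea4, -, -, -⟩ := hLEA
  obtain ⟨ep1, ep2, -⟩ := hLEP
  obtain ⟨eb1, -, eb3⟩ := hLEB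
  obtain ⟨-, -, -, -, -, cv6⟩ := hLCV
  refine ⟨2 * K1 + 16, by linarith, ?_⟩
  intro lam den q c s0 N hlam hlam2 hden hs0 hq hNI hgap B N' hN1 hN2 hB hUC
  set b : ℝ → ℝ := (UC N' B).indicator 1 with hb
  have hSz : ∀ i < q, Sz (c i) (1 / 100) := fun i hi => (hNI i hi).1
  have hb01 : ∀ x, b x = 0 ∨ b x = 1 := by
    intro x
    by_cases hx : x ∈ UC N' B
    · right
      rw [hb, Set.indicator_of_mem hx]
      rfl
    · left
      rw [hb, Set.indicator_of_notMem hx]
  have hb0 : ∀ x, 0 ≤ b x := fun x => by rcases hb01 x with h | h <;> rw [h] <;> norm_num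
  have hbsup : ∀ x, x ∉ Set.Icc (1 / 4 : ℝ) (3 / 4) → b x = 0 := by
    intro x hx
    rw [hb]
    apply Set.indicator_of_notMem
    intro hU
    exact hx (hB _ hU ((MIX_mem_cell N' _ x).2 rfl))
  have hPAb : PA N' b := MIX_PA_ind N' B
  have hBMb : BM b := by
    apply bm3 N' b hPAb
    intro x hx
    apply hbsup
    intro h
    exact hx ⟨by linarith [h.1], by linarith [h.2]⟩
  have hint : ∫ x, b x = volume.real (UC N' B) := by
    rw [hb]
    exact integral_indicator_one (MIX_measUC N' B)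
  have hbb : ∀ x, b x ^ 2 = b x := fun x => by rcases hb01 x with h | h <;> rw [h] <;> norm_num
  have hnsqb : nsq b ≤ B.card / 2 ^ N' := by
    unfold nsq
    simp_rw [hbb]
    rw [hint]
    exact MIX_volUC N' B
  have hnsqb' : nsq b = ∫ x, b x := by
    unfold nsq
    simp_rw [hbb]
  have hnb0 : 0 ≤ nsq b := integral_nonneg (fun x => by positivity)
  -- the projection
  set e : ℝ → ℝ := Es s0 b with he
  have hBMe : BM e := (bm4 s0 b hBMb).1
  have hPAe : PA s0 e := ea2 s0 b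
  set f1 : ℝ → ℝ := fun x => b x - e x with hf1
  have hBMf1 : BM f1 := (bm1 b e hBMb hBMe).2.1
  have hPAf1 : PA N' f1 := MIX_PA_sub N' b e hPAb (ea1 s0 N' e hN1 hPAe)
  have hEf1 : ∀ x, Es s0 f1 x = 0 := by
    intro x
    have h1 := (ea4 s0 b e hBMb hBMe x).2
    have h2 := ea3 s0 e hPAe x
    rw [hf1, h1, h2, he]
    ring
  have hp : (1 : ℝ) / 2 ^ s0 ≤ 1 / 1024 := by
    apply one_div_le_one_div_of_le (by norm_num)
    calc (1024 : ℝ) = 2 ^ 10 := by norm_num
      _ ≤ 2 ^ s0 := pow_le_pow_right₀ (by norm_num) hs0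
  have hS2 : S2 f1 := by
    intro x hx
    have h1 : b x = 0 := by
      apply hbsup
      intro h
      exact hx ⟨by linarith [h.1], by linarith [h.2]⟩
    have h2 : e x = 0 := by
      apply eb3 s0 b (1 / 4) (3 / 4) hbsup
      intro h
      exact hx ⟨by linarith [h.1], by linarith [h.2]⟩
    rw [hf1]
    simp only [h1, h2, sub_zero]
  have hA := hF lam q c s0 N hlam hlam2 hs0 hSz hgap f1 N' hN2 hPAf1 hS2 hEf1
  have hne0 : 0 ≤ nsq e := integral_nonneg (fun x => by positivity)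
  have hnf1 : nsq f1 ≤ nsq b := by
    have := ep2 s0 b hBMb
    rw [← he] at this
    linarith
  have hLg : 0 ≤ Lg lam := by
    unfold Lg
    have : 0 ≤ Real.log (1 / lam) := Real.log_nonneg (by rw [le_div_iff₀ hlam]; linarith)
    linarith
  have hA' : nsq (Mop q c f1) ≤ K1 * lam ^ 2 * Lg lam * nsq b :=
    hA.trans (mul_le_mul_of_nonneg_left hnf1 (by positivity))
  -- the second part
  have hE := cv6 q c e hSz hBMe
  have hcellI : ∀ k : ℤ, ∫ t in cell s0 k, |b t| ≤ den / 2 ^ s0 := by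
    intro k
    have h1 : ∫ t in cell s0 k, |b t| = ∫ t in cell s0 k, b t := by
      apply integral_congr_ae
      filter_upwards with t
      exact abs_of_nonneg (hb0 t)
    rw [h1, hb, integral_indicator_one (MIX_measUC N' B), measureReal_restrict_apply (MIX_measUC N' B)]
    exact hUC k
  have hebd : ∀ x, |e x| ≤ 4 * den := by
    intro x
    have h1 := eb1 s0 b x hBMb
    have h2 : (0 : ℝ) < 2 ^ s0 := by positivity
    calc |e x| ≤ 4 * 2 ^ s0 * ∫ t in cell s0 (ci s0 x), |b t| := h1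
      _ ≤ 4 * 2 ^ s0 * (den / 2 ^ s0) := mul_le_mul_of_nonneg_left (hcellI _) (by positivity)
      _ = 4 * den := by field_simp
  have hne : nsq e ≤ 4 * den * nsq b := by
    have h1 := ep1 s0 b e hBMb hBMe
    have h2 : ∀ x, b x * Es s0 e x = b x * e x := fun x => by rw [ea3 s0 e hPAe x]
    have h3 : nsq e = ∫ x, b x * e x := by
      unfold nsq
      have : ∀ x, e x ^ 2 = Es s0 b x * e x := fun x => by rw [← he]; ring
      simp_rw [this]
      rw [h1]
      simp_rw [h2]
    rw [h3, hnsqb', ← integral_const_mul]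
    apply integral_mono (bm2 1 _ (bm1 b e hBMb hBMe).2.2).2.2 ((bm2 1 b hBMb).2.2.const_mul _)
    intro x
    show b x * e x ≤ 4 * den * b x
    have := (le_abs_self _).trans (hebd x)
    nlinarith [hb0 x]
  -- sum
  have hBMf : BM (Mop q c f1) := bm6 q c f1 hBMf1
  have hBMe' : BM (Mop q c e) := bm6 q c e hBMe
  have hsplit : ∀ x, Mop q c b x = Mop q c f1 x + Mop q c e x := by
    intro x
    unfold Mop
    rw [← add_div, ← Finset.sum_add_distrib]
    congr 1
    apply Finset.sum_congr rfl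
    intro i _
    rw [hf1]
    ring
  have hsq : nsq (Mop q c b) ≤ 2 * nsq (Mop q c f1) + 2 * nsq (Mop q c e) := by
    unfold nsq
    rw [← integral_const_mul, ← integral_const_mul, ← integral_add]
    · apply integral_mono
      · have hBMs := bm2 1 _ (bm1 _ _ (bm1 _ _ hBMf hBMe').1 (bm1 _ _ hBMf hBMe').1).2.2
        refine hBMs.2.2.congr ?_
        filter_upwards with x
        rw [hsplit]
        ring
      · exact (((bm2 1 _ (bm1 _ _ hBMf hBMf).2.2).2.2.congr (by filter_upwards with x; ring)).const_mul 2).add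
          (((bm2 1 _ (bm1 _ _ hBMe' hBMe').2.2).2.2.congr (by filter_upwards with x; ring)).const_mul 2)
      · intro x
        show Mop q c b x ^ 2 ≤ 2 * Mop q c f1 x ^ 2 + 2 * Mop q c e x ^ 2
        rw [hsplit]
        nlinarith [sq_nonneg (Mop q c f1 x - Mop q c e x)]
    · exact ((bm2 1 _ (bm1 _ _ hBMf hBMf).2.2).2.2.congr (by filter_upwards with x; ring)).const_mul 2
    · exact ((bm2 1 _ (bm1 _ _ hBMe' hBMe').2.2).2.2.congr (by filter_upwards with x; ring)).const_mul 2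
  have hLgeq : 1 + Real.log (1 / lam) = Lg lam := rfl
  rw [hLgeq]
  have hc0 : 0 ≤ K1 * lam ^ 2 * Lg lam := by positivity
  calc nsq (Mop q c b) ≤ 2 * nsq (Mop q c f1) + 2 * nsq (Mop q c e) := hsq
    _ ≤ 2 * (K1 * lam ^ 2 * Lg lam * nsq b) + 2 * (2 * (4 * den * nsq b)) := by linarith
    _ = (2 * K1 * lam ^ 2 * Lg lam + 16 * den) * nsq b := by ring
    _ ≤ ((2 * K1 + 16) * lam ^ 2 * Lg lam + (2 * K1 + 16) * den) * nsq b := by
        apply mul_le_mul_of_nonneg_right _ hnb0
        have h1 : 0 ≤ lam ^ 2 * Lg lam := by positivity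
        have h2 : 0 ≤ K1 * den := by positivity
        nlinarith
    _ ≤ ((2 * K1 + 16) * lam ^ 2 * Lg lam + (2 * K1 + 16) * den) * (B.card / 2 ^ N') := by
        apply mul_le_mul_of_nonneg_left hnsqb
        positivity

end Pool.Agent.helper90.DH
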