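import Pool.Agent.helper48.DH.SpecY

set_option autoImplicit false

open Filter Topology MeasureTheory
open scoped commutatorElement

namespace Pool.Agent.helper90.DH

open Pool.Agent.helper64.D2

lemma yTL_mem_cell (s : ℕ) (k : ℤ) (x : ℝ) : x ∈ cell s k ↔ ci s x = k := by
  have h2 : (0 : ℝ) < 2 ^ s := by positivity
  unfold cell ci
  rw [Int.floor_eq_iff, Set.mem_Ico, div_le_iff₀ h2, lt_div_iff₀ h2, mul_comm x]

lemma yTL_measCell (s : ℕ) (k : ℤ) : MeasurableSet (cell s k) := measurableSet_Ico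

lemma yTL_bound (s : ℕ) (D : ℝ → ℝ) (w : ℤ → ℝ) (b W : ℝ) (hb : ∀ x, |D x| ≤ b) (hW : 0 ≤ W)
    (hw : ∀ k : ℤ, (∃ x ∈ cell s k, D x ≠ 0) → |w k| ≤ W) (t : ℝ) : |w (ci s t) * D t| ≤ W * b := by
  have hb0 : 0 ≤ b := (abs_nonneg _).trans (hb 0)
  by_cases h : D t = 0
  · rw [h, mul_zero, abs_zero]
    exact mul_nonneg hW hb0
  · rw [abs_mul]
    exact mul_le_mul (hw _ ⟨t, (yTL_mem_cell s _ t).2 rfl, h⟩) (hb t) (abs_nonneg _) hW

lemma yTL_BM (s : ℕ) (D : ℝ → ℝ) (w : ℤ → ℝ) (b W : ℝ) (hD : BM D) (hb : ∀ x, |D x| ≤ b) (hW : 0 ≤ W)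
    (hw : ∀ k : ℤ, (∃ x ∈ cell s k, D x ≠ 0) → |w k| ≤ W) : BM (fun t => w (ci s t) * D t) := by
  refine ⟨?_, ⟨W * b, yTL_bound s D w b W hb hW hw⟩, ?_⟩
  · refine Measurable.mul ?_ hD.1
    have h1 : Measurable (fun t : ℝ => ci s t) := by
      unfold ci
      exact Int.measurable_floor.comp (measurable_const.mul measurable_id)
    exact (measurable_from_top (f := w)).comp h1
  · intro x hx
    show w (ci s x) * D x = 0
    rw [hD.2.2 x hx, mul_zero]

lemma yTL_zero : BM (fun _ => (0 : ℝ)) := ⟨measurable_const, ⟨0, fun _ => by simp⟩, fun _ _ => rfl⟩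

lemma yTL_moments (hEM : yEM_stmt) (s : ℕ) (D : ℝ → ℝ) (w : ℤ → ℝ) (hD : BM D) (hE : ∀ x, Es s D x = 0) (k : ℤ) :
    (∫ t in cell s k, w (ci s t) * D t) = 0 ∧ (∫ t in cell s k, t * (w (ci s t) * D t)) = 0 := by
  obtain ⟨h0, h1⟩ := hEM.2 s D hD hE k
  constructor
  · have h2 : (∫ t in cell s k, w (ci s t) * D t) = ∫ t in cell s k, w k * D t := by
      apply setIntegral_congr_fun (yTL_measCell s k)
      intro t ht
      show w (ci s t) * D t = w k * D t
      rw [(yTL_mem_cell s k t).1 ht]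
    rw [h2, integral_const_mul, h0, mul_zero]
  · have h2 : (∫ t in cell s k, t * (w (ci s t) * D t)) = ∫ t in cell s k, w k * (t * D t) := by
      apply setIntegral_congr_fun (yTL_measCell s k)
      intro t ht
      show t * (w (ci s t) * D t) = w k * (t * D t)
      rw [(yTL_mem_cell s k t).1 ht]
      ring
    rw [h2, integral_const_mul, h1, mul_zero]

theorem yTL (hCAL : yCAL_stmt) (hEM : yEM_stmt) (hGR : yGR_stmt) : yTL_stmt := by
  intro s D w b W hD hE hb hW hw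
  have hB := yTL_BM s D w b W hD hb hW hw
  refine ⟨hB, ?_⟩
  have hb0 : 0 ≤ b := (abs_nonneg _).trans (hb 0)
  have hgrid := (hGR s (fun t => w (ci s t) * D t) (fun _ => (0 : ℝ)) hB yTL_zero (by
    intro k
    obtain ⟨h0, h1⟩ := yTL_moments hEM s D w hD hE k
    constructor
    · show (∫ t in cell s k, w (ci s t) * D t) = ∫ t in cell s k, (0 : ℝ)
      rw [h0, integral_zero]
    · show (∫ t in cell s k, t * (w (ci s t) * D t)) = ∫ t in cell s k, t * (0 : ℝ)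
      rw [h1]
      simp)).1
  intro x
  have h2 : (0 : ℝ) < 2 ^ s := by positivity
  obtain ⟨k, hk⟩ : ∃ k : ℤ, ci s x = k := ⟨_, rfl⟩
  have hxk : x ∈ cell s k := (yTL_mem_cell s k x).2 hk
  obtain ⟨x0, hx0⟩ : ∃ x0 : ℝ, x0 = (k : ℝ) / 2 ^ s := ⟨_, rfl⟩
  obtain ⟨hg0, hg1⟩ := hgrid k
  rw [← hx0] at hg0 hg1
  have hg0' : (∫ t in (0 : ℝ)..x0, w (ci s t) * D t) = 0 := by
    have := hg0
    rw [intervalIntegral.integral_zero] at this
    exact this
  have hg1' : A2 (fun t => w (ci s t) * D t) x0 = 0 := by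
    rw [hg1]
    unfold A2
    simp
  have hx1 : x0 ≤ x := by rw [hx0]; exact hxk.1
  have hx2 : x - x0 ≤ 1 / 2 ^ s := by
    have h3 : x < ((k : ℝ) + 1) / 2 ^ s := hxk.2
    rw [add_div, ← hx0] at h3
    linarith
  have hsub : ∀ t ∈ Set.uIcc x0 x, t ∈ cell s k := by
    intro t ht
    rw [Set.uIcc_of_le hx1] at ht
    refine ⟨?_, lt_of_le_of_lt ht.2 hxk.2⟩
    rw [← hx0]
    exact ht.1
  have hc4 := ((hCAL.1 (fun t => w (ci s t) * D t) hB x x0).2.2.2)
  have hsq : (x - x0) ^ 2 ≤ 1 / 4 ^ s := by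
    have h4 : (1 : ℝ) / 4 ^ s = (1 / 2 ^ s) ^ 2 := by
      rw [div_pow, one_pow, ← pow_mul, mul_comm s 2, pow_mul]
      norm_num
    rw [h4]
    exact pow_le_pow_left₀ (by linarith) hx2 2
  have habs : |x - x0| ≤ 1 / 2 ^ s := by
    rw [abs_of_nonneg (by linarith)]
    exact hx2
  have hWb : 0 ≤ W * b := mul_nonneg hW hb0
  refine ⟨?_, ?_, ?_⟩
  · have h5 := (hc4 (W * b) (fun t _ => yTL_bound s D w b W hb hW hw t)).1
    rw [hg0', sub_zero] at h5
    refine h5.trans ?_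
    rw [div_eq_mul_one_div]
    exact mul_le_mul_of_nonneg_left habs hWb
  · have h5 := (hc4 (W * b) (fun t _ => yTL_bound s D w b W hb hW hw t)).2
    rw [hg0', hg1', mul_zero, sub_zero, sub_zero] at h5
    refine h5.trans ?_
    rw [div_eq_mul_one_div]
    exact mul_le_mul_of_nonneg_left hsq hWb
  · intro hz
    rw [hk] at hz
    have h5 := hc4 0 (by
      intro t ht
      show |w (ci s t) * D t| ≤ 0
      rw [hz t (hsub t ht), mul_zero, abs_zero])
    obtain ⟨h6, h7⟩ := h5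
    rw [hg0', sub_zero, zero_mul] at h6
    rw [hg0', hg1', mul_zero, sub_zero, sub_zero, zero_mul] at h7
    exact ⟨abs_nonpos_iff.1 h6, abs_nonpos_iff.1 h7⟩

end Pool.Agent.helper90.DH
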